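import Pool.Agent.Q227.MC.Pol
import Pool.Agent.Q227.MC.Mem
import Pool.Agent.H673R2.HardOn

/-!
# Matching cut on `S_{2,2,2,2}`-subgraph-free graphs is NP-complete

The reduction is from 3-satisfiability. A cluster is a chain of diamonds, whose vertices are on
the same side of every matching cut; every vertex of degree four of the constructed graph lies on
a diamond in which Hall's condition for a spider fails.
-/

set_option autoImplicit false

namespace Pool.Agent.Results.MP_12d0d1_lc.MatchingCut

open Pool.Agent.NPC Pool.Agent.H673R2 Pool.Agent.H679R2 Pool.Agent.Q227.TF Pool.Agent.Q227.MC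

/-- The presented graph `I` is `S_{2,2,2,2}`-subgraph-free: it has no (not necessarily induced)
subgraph isomorphic to `S_{2,2,2,2}`. -/
def SpiderFree (I : PG) : Prop := S2222.Free (toGraph I)

/-- MATCHING CUT on `S_{2,2,2,2}`-subgraph-free graphs. -/
def MatchingCutSF (I : PG) : Prop := SpiderFree I ∧ HasMatchingCut (toGraph I)

/-- MATCHING CUT is `NP`-complete on `S_{2,2,2,2}`-subgraph-free graphs: it is in `NP`, and every
language in `NP` has a polynomial-time many-one reduction to it, all of whose instances are
`S_{2,2,2,2}`-subgraph-free graphs. -/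
theorem result : InNPP MatchingCutSF ∧ NPHardOn SpiderFree MatchingCutSF := by
  refine ⟨inNPP_mc S2222, ?_⟩
  exact npHardOn_of hardPr_SAT3b (f := red) red_poly (fun φ hφ => red_free hφ.2.1)
    fun φ hφ => (red_iff hφ.2.1).trans ⟨fun h => ⟨red_free hφ.2.1, h⟩, fun h => h.2⟩

end Pool.Agent.Results.MP_12d0d1_lc.MatchingCut
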